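import Mathlib
import Pool.Agent.H323.PMean.Defs
import Pool.Agent.H323.PMean.Inf

/-!
# The weighted power mean with exponent `1/2` is monotone for every Schatten metric

All the definitions used in the statement are in `Pool.Agent.H323.PMean.Defs`.
-/

namespace Pool.Agent.Results.MP_9bce2c_an.HalfMonotone

open H323.PMean
open scoped ComplexOrder

theorem result (n : ℕ) (X Y : Mat n) (hX : X.PosDef) (hY : Y.PosDef) :
    (∀ q : ℝ, 1 ≤ q →
      MonotoneOn (fun t : ℝ => schatten q (pmean (1 / 2) t X Y - Y)) (Set.Icc 0 1)) ∧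
    MonotoneOn (fun t : ℝ => schattenInf (pmean (1 / 2) t X Y - Y)) (Set.Icc 0 1) :=
  ⟨fun _ hq => mono hq hX hY, mono_inf hX hY⟩

end Pool.Agent.Results.MP_9bce2c_an.HalfMonotone
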